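import Mathlib

/-!
# A homeomorphism of the disk without small congruent triangles of given angles

The map `T z = z (3 + 4 i |z|²) / 5` is a homeomorphism of the closed unit disk onto itself.  Its
derivative at `p` is the real linear map `A_p v = (3 v + 4 i (|p|² v + 2 ⟨p, v⟩ p)) / 5`, and the
symmetric form `S_p(x, y) = ⟨A_p x, A_p y⟩ - ⟨x, y⟩` satisfies
`9 S_p(e, e) - S_p(e', e') = - 128 / 25` for unit vectors `e' ∥ p` and `e ⊥ p`.  So `A_p` is never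
an isometry, with a uniform bound, whereas a small triangle with a given angle that is congruent to
its image would force `S_p` to be small.
-/

open Complex

namespace Pool.Agent.Results.MP_623bad_gt.NoSmallTriangles

/-- real inner product -/
noncomputable def ip (x y : ℂ) : ℝ := x.re * y.re + x.im * y.im
/-- determinant -/
noncomputable def dt (x y : ℂ) : ℝ := x.re * y.im - x.im * y.re

/-- squared norm in coordinates -/
lemma norm_sq_eq (x : ℂ) : ‖x‖ ^ 2 = x.re ^ 2 + x.im ^ 2 := by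
  rw [Complex.sq_norm, Complex.normSq_apply]; ring

lemma ip_self (x : ℂ) : ip x x = ‖x‖ ^ 2 := by
  rw [norm_sq_eq, ip]; ring

lemma lagrange (x y : ℂ) : ip x y ^ 2 + dt x y ^ 2 = ‖x‖ ^ 2 * ‖y‖ ^ 2 := by
  rw [norm_sq_eq, norm_sq_eq, ip, dt]; ring

lemma abs_ip_le (x y : ℂ) : |ip x y| ≤ ‖x‖ * ‖y‖ := by
  apply abs_le_of_sq_le_sq _ (by positivity)
  nlinarith [lagrange x y, sq_nonneg (dt x y)]

lemma abs_dt_le (x y : ℂ) : |dt x y| ≤ ‖x‖ * ‖y‖ := by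
  apply abs_le_of_sq_le_sq _ (by positivity)
  nlinarith [lagrange x y, sq_nonneg (ip x y)]

/-- the map -/
noncomputable def t (z : ℂ) : ℂ := z * (3 + 4 * I * ((‖z‖ ^ 2 : ℝ) : ℂ)) / 5

/-- its derivative -/
noncomputable def A (p v : ℂ) : ℂ :=
  (3 * v + 4 * I * (((‖p‖ ^ 2 : ℝ) : ℂ) * v + 2 * ((ip p v : ℝ) : ℂ) * p)) / 5

/-- the remainder -/
noncomputable def R (p v : ℂ) : ℂ :=
  (4 * I * (((‖v‖ ^ 2 : ℝ) : ℂ) * p + 2 * ((ip p v : ℝ) : ℂ) * v + ((‖v‖ ^ 2 : ℝ) : ℂ) * v)) / 5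

lemma t_sub (p v : ℂ) : t (p + v) - t p = A p v + R p v := by
  have h : ‖p + v‖ ^ 2 = ‖p‖ ^ 2 + 2 * ip p v + ‖v‖ ^ 2 := by
    rw [norm_sq_eq, norm_sq_eq, norm_sq_eq, ip, Complex.add_re, Complex.add_im]; ring
  rw [t, t, A, R, h]
  push_cast
  ring

lemma norm_R_le {p v : ℂ} (hp : ‖p‖ ≤ 1) (hv : ‖v‖ ≤ 2) : ‖R p v‖ ≤ 4 * ‖v‖ ^ 2 := by
  have h0 : R p v = (4 / 5) * (I * (((‖v‖ ^ 2 : ℝ) : ℂ) * p + 2 * ((ip p v : ℝ) : ℂ) * v
      + ((‖v‖ ^ 2 : ℝ) : ℂ) * v)) := by rw [R]; ring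
  rw [h0, norm_mul, norm_mul, Complex.norm_I, one_mul]
  have h1 : ‖(((‖v‖ ^ 2 : ℝ) : ℂ) * p + 2 * ((ip p v : ℝ) : ℂ) * v + ((‖v‖ ^ 2 : ℝ) : ℂ) * v)‖
      ≤ ‖v‖ ^ 2 * ‖p‖ + 2 * |ip p v| * ‖v‖ + ‖v‖ ^ 2 * ‖v‖ := by
    refine (norm_add₃_le).trans ?_
    rw [norm_mul, norm_mul, norm_mul, norm_mul, Complex.norm_real, Complex.norm_real,
      Complex.norm_ofNat, Real.norm_eq_abs, Real.norm_eq_abs, abs_of_nonneg (sq_nonneg ‖v‖)]
  have h2 := abs_ip_le p v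
  have h3 : ‖(4 / 5 : ℂ)‖ = 4 / 5 := by simp
  rw [h3]
  have hv0 := norm_nonneg v
  have hp0 := norm_nonneg p
  have h4 : |ip p v| ≤ ‖v‖ := h2.trans (by nlinarith)
  nlinarith [mul_le_mul_of_nonneg_right h4 hv0, mul_le_mul_of_nonneg_left hp (sq_nonneg ‖v‖),
    mul_le_mul_of_nonneg_left hv (sq_nonneg ‖v‖)]

/-- the strain form -/
noncomputable def S (p x y : ℂ) : ℝ := ip (A p x) (A p y) - ip x y

/-- The pull back of the form to the basis `u, w`. -/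
lemma S_expand (p x u w : ℂ) : dt u w ^ 2 * S p x x
    = dt x w ^ 2 * S p u u - 2 * dt x w * dt x u * S p u w + dt x u ^ 2 * S p w w := by
  simp only [S, ip, dt, A, Complex.div_re, Complex.div_im, Complex.add_re, Complex.add_im,
    Complex.mul_re, Complex.mul_im, Complex.I_re, Complex.I_im, Complex.ofReal_re,
    Complex.ofReal_im]
  norm_num
  ring

/-- The combination of the strain form that never vanishes. -/
lemma S_key (p : ℂ) : ∃ e : ℂ, ‖e‖ = 1 ∧ 9 * S p (I * e) (I * e) - S p e e = -(128 / 25) := by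
  obtain ⟨e, he, hpe⟩ : ∃ e : ℂ, ‖e‖ = 1 ∧ p = (‖p‖ : ℂ) * e := by
    by_cases hp : p = 0
    · exact ⟨1, by simp, by simp [hp]⟩
    · refine ⟨p / ‖p‖, ?_, ?_⟩
      · rw [norm_div, Complex.norm_real, norm_norm, div_self (norm_ne_zero_iff.2 hp)]
      · have : (‖p‖ : ℂ) ≠ 0 := by exact_mod_cast norm_ne_zero_iff.2 hp
        field_simp
  refine ⟨e, he, ?_⟩
  set ρ : ℝ := ‖p‖ with hρ
  have h1 : e.re ^ 2 + e.im ^ 2 = 1 := by rw [← norm_sq_eq, he]; norm_num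
  have hip : ip p e = ρ := by
    rw [hpe, ip]
    simp only [Complex.mul_re, Complex.mul_im, Complex.ofReal_re, Complex.ofReal_im]
    linear_combination ρ * h1
  have hip' : ip p (I * e) = 0 := by
    rw [hpe, ip]
    simp only [Complex.mul_re, Complex.mul_im, Complex.ofReal_re, Complex.ofReal_im, Complex.I_re,
      Complex.I_im]
    ring
  have hA1 : A p e = ((3 + 12 * (ρ : ℂ) ^ 2 * I) / 5) * e := by
    rw [A, hip, ← hρ]
    conv_lhs => rw [hpe]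
    push_cast
    ring
  have hA2 : A p (I * e) = ((3 * I - 4 * (ρ : ℂ) ^ 2) / 5) * e := by
    rw [A, hip', ← hρ]
    push_cast
    linear_combination (4 * (ρ : ℂ) ^ 2 * e / 5) * I_sq
  have hn1 : ‖A p e‖ ^ 2 = (9 + 144 * ρ ^ 4) / 25 := by
    have : ((3 + 12 * (ρ : ℂ) ^ 2 * I) / 5) = ((3 / 5 : ℝ) : ℂ) + ((12 * ρ ^ 2 / 5 : ℝ) : ℂ) * I := by
      push_cast; ring
    rw [hA1, norm_mul, he, mul_one, this, Complex.sq_norm, Complex.normSq_add_mul_I]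
    ring
  have hn2 : ‖A p (I * e)‖ ^ 2 = (9 + 16 * ρ ^ 4) / 25 := by
    have : ((3 * I - 4 * (ρ : ℂ) ^ 2) / 5)
        = ((-4 * ρ ^ 2 / 5 : ℝ) : ℂ) + ((3 / 5 : ℝ) : ℂ) * I := by
      push_cast; ring
    rw [hA2, norm_mul, he, mul_one, this, Complex.sq_norm, Complex.normSq_add_mul_I]
    ring
  have hIe : ‖I * e‖ = 1 := by rw [norm_mul, Complex.norm_I, he, one_mul]
  rw [S, S, ip_self, ip_self, ip_self, ip_self, hn1, hn2, he, hIe]
  ring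

/-- Perturbation of inner products. -/
lemma abs_S_le {p u w : ℂ} {h : ℝ} (hp : ‖p‖ ≤ 1) (hh : h ≤ 1) (hu : ‖u‖ ≤ h) (hw : ‖w‖ ≤ h)
    (hU : ‖t (p + u) - t p‖ = ‖u‖) (hW : ‖t (p + w) - t p‖ = ‖w‖)
    (hUW : ip (t (p + u) - t p) (t (p + w) - t p) = ip u w) :
    |S p u w| ≤ 24 * h * (‖u‖ * ‖w‖) := by
  have hu0 := norm_nonneg u
  have hw0 := norm_nonneg w
  have hRu := norm_R_le hp (show ‖u‖ ≤ 2 by linarith)
  have hRw := norm_R_le hp (show ‖w‖ ≤ 2 by linarith)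
  set U := t (p + u) - t p with hUdef
  set W := t (p + w) - t p with hWdef
  have hAu : A p u = U - R p u := by rw [hUdef, t_sub]; ring
  have hAw : A p w = W - R p w := by rw [hWdef, t_sub]; ring
  have hS : S p u w = - ip U (R p w) - ip (R p u) W + ip (R p u) (R p w) := by
    rw [S, hAu, hAw, ← hUW]
    simp only [ip, Complex.sub_re, Complex.sub_im]
    ring
  have h1 : |ip U (R p w)| ≤ ‖u‖ * (4 * ‖w‖ ^ 2) := by
    refine (abs_ip_le _ _).trans ?_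
    rw [hU]
    exact mul_le_mul_of_nonneg_left hRw hu0
  have h2 : |ip (R p u) W| ≤ (4 * ‖u‖ ^ 2) * ‖w‖ := by
    refine (abs_ip_le _ _).trans ?_
    rw [hW]
    exact mul_le_mul_of_nonneg_right hRu hw0
  have h3 : |ip (R p u) (R p w)| ≤ (4 * ‖u‖ ^ 2) * (4 * ‖w‖ ^ 2) := by
    refine (abs_ip_le _ _).trans ?_
    exact mul_le_mul hRu hRw (norm_nonneg _) (by positivity)
  have h4 : |S p u w| ≤ ‖u‖ * (4 * ‖w‖ ^ 2) + (4 * ‖u‖ ^ 2) * ‖w‖
      + (4 * ‖u‖ ^ 2) * (4 * ‖w‖ ^ 2) := by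
    rw [hS]
    refine (abs_add_le _ _).trans (add_le_add ((abs_sub _ _).trans (add_le_add ?_ h2)) h3)
    rw [abs_neg]
    exact h1
  refine h4.trans ?_
  have huw : 0 ≤ ‖u‖ * ‖w‖ := mul_nonneg hu0 hw0
  have h5 : ‖u‖ * (4 * ‖w‖ ^ 2) ≤ 4 * h * (‖u‖ * ‖w‖) := by
    nlinarith [mul_le_mul_of_nonneg_left hw huw]
  have h6 : (4 * ‖u‖ ^ 2) * ‖w‖ ≤ 4 * h * (‖u‖ * ‖w‖) := by
    nlinarith [mul_le_mul_of_nonneg_left hu huw]
  have h7 : ‖u‖ * ‖w‖ ≤ h := by nlinarith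
  have h8 : (4 * ‖u‖ ^ 2) * (4 * ‖w‖ ^ 2) ≤ 16 * h * (‖u‖ * ‖w‖) := by
    nlinarith [mul_le_mul_of_nonneg_left h7 huw]
  linarith

/-- The main estimate. -/
lemma main_bound {p u w : ℂ} {h : ℝ} (hp : ‖p‖ ≤ 1) (hh : h ≤ 1) (hu : ‖u‖ ≤ h) (hw : ‖w‖ ≤ h)
    (hU : ‖t (p + u) - t p‖ = ‖u‖) (hW : ‖t (p + w) - t p‖ = ‖w‖)
    (hUW : ‖t (p + u) - t (p + w)‖ = ‖u - w‖) :
    dt u w ^ 2 ≤ 190 * h * (‖u‖ ^ 2 * ‖w‖ ^ 2) := by
  have hu0 := norm_nonneg u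
  have hw0 := norm_nonneg w
  have hh0 : 0 ≤ h := hu0.trans hu
  have hinner : ip (t (p + u) - t p) (t (p + w) - t p) = ip u w := by
    have e1 : ‖t (p + u) - t (p + w)‖ ^ 2 = ‖t (p + u) - t p‖ ^ 2 + ‖t (p + w) - t p‖ ^ 2
        - 2 * ip (t (p + u) - t p) (t (p + w) - t p) := by
      rw [norm_sq_eq, norm_sq_eq, norm_sq_eq, ip]
      simp only [Complex.sub_re, Complex.sub_im]
      ring
    have e2 : ‖u - w‖ ^ 2 = ‖u‖ ^ 2 + ‖w‖ ^ 2 - 2 * ip u w := by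
      rw [norm_sq_eq, norm_sq_eq, norm_sq_eq, ip]
      simp only [Complex.sub_re, Complex.sub_im]
      ring
    rw [hUW, hU, hW] at e1
    linarith
  have hSuw := abs_S_le hp hh hu hw hU hW hinner
  have hSuu := abs_S_le hp hh hu hu hU hU (by rw [ip_self, ip_self, hU])
  have hSww := abs_S_le hp hh hw hw hW hW (by rw [ip_self, ip_self, hW])
  have key : ∀ x : ℂ, ‖x‖ = 1 → |dt u w ^ 2 * S p x x| ≤ 96 * h * (‖u‖ ^ 2 * ‖w‖ ^ 2) := by
    intro x hx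
    have hxw : |dt x w| ≤ ‖w‖ := by simpa [hx] using abs_dt_le x w
    have hxu : |dt x u| ≤ ‖u‖ := by simpa [hx] using abs_dt_le x u
    rw [S_expand]
    have a1 : |dt x w ^ 2 * S p u u| ≤ ‖w‖ ^ 2 * (24 * h * (‖u‖ * ‖u‖)) := by
      rw [abs_mul, abs_pow]
      exact mul_le_mul (pow_le_pow_left₀ (abs_nonneg _) hxw 2) hSuu (abs_nonneg _) (by positivity)
    have a2 : |2 * dt x w * dt x u * S p u w| ≤ 2 * ‖w‖ * ‖u‖ * (24 * h * (‖u‖ * ‖w‖)) := by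
      rw [abs_mul, abs_mul, abs_mul, abs_two]
      refine mul_le_mul ?_ hSuw (abs_nonneg _) (by positivity)
      exact mul_le_mul (mul_le_mul_of_nonneg_left hxw (by norm_num)) hxu (abs_nonneg _)
        (by positivity)
    have a3 : |dt x u ^ 2 * S p w w| ≤ ‖u‖ ^ 2 * (24 * h * (‖w‖ * ‖w‖)) := by
      rw [abs_mul, abs_pow]
      exact mul_le_mul (pow_le_pow_left₀ (abs_nonneg _) hxu 2) hSww (abs_nonneg _) (by positivity)
    calc |dt x w ^ 2 * S p u u - 2 * dt x w * dt x u * S p u w + dt x u ^ 2 * S p w w|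
        ≤ |dt x w ^ 2 * S p u u| + |2 * dt x w * dt x u * S p u w| + |dt x u ^ 2 * S p w w| :=
          (abs_add_le _ _).trans (add_le_add (abs_sub _ _) le_rfl)
      _ ≤ ‖w‖ ^ 2 * (24 * h * (‖u‖ * ‖u‖)) + 2 * ‖w‖ * ‖u‖ * (24 * h * (‖u‖ * ‖w‖))
          + ‖u‖ ^ 2 * (24 * h * (‖w‖ * ‖w‖)) := by linarith
      _ = 96 * h * (‖u‖ ^ 2 * ‖w‖ ^ 2) := by ring
  obtain ⟨e, he, hS⟩ := S_key p
  have hIe : ‖I * e‖ = 1 := by rw [norm_mul, Complex.norm_I, he, one_mul]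
  have k1 := abs_le.1 (key e he)
  have k2 := abs_le.1 (key (I * e) hIe)
  have k3 : dt u w ^ 2 * (9 * S p (I * e) (I * e) - S p e e) = dt u w ^ 2 * (-(128 / 25)) := by
    rw [hS]
  have hpos : 0 ≤ h * (‖u‖ ^ 2 * ‖w‖ ^ 2) := by positivity
  nlinarith [k1.1, k1.2, k2.1, k2.2, k3]

/-! ### The homeomorphism -/

lemma norm_t_sq (z : ℂ) : ‖t z‖ ^ 2 = ‖z‖ ^ 2 * (9 + 16 * (‖z‖ ^ 2) ^ 2) / 25 := by
  have h1 : t z = z * (((3 / 5 : ℝ) : ℂ) + ((4 * ‖z‖ ^ 2 / 5 : ℝ) : ℂ) * I) := by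
    rw [t]; push_cast; ring
  rw [h1, norm_mul, mul_pow, Complex.sq_norm (_ + _), Complex.normSq_add_mul_I]
  ring

lemma continuous_t : Continuous t := by
  unfold t
  fun_prop

lemma t_mem {z : ℂ} (hz : z ∈ Metric.closedBall (0 : ℂ) 1) : t z ∈ Metric.closedBall (0 : ℂ) 1 := by
  rw [mem_closedBall_zero_iff] at *
  have h := norm_t_sq z
  have h1 : ‖z‖ ^ 2 ≤ 1 := by nlinarith [norm_nonneg z]
  have h2 : ‖t z‖ ^ 2 ≤ 1 := by
    rw [h]
    have h0 : 0 ≤ ‖z‖ ^ 2 := sq_nonneg _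
    have h3 : (‖z‖ ^ 2) ^ 2 ≤ 1 := by nlinarith
    nlinarith
  nlinarith [norm_nonneg (t z)]

lemma t_injective : Function.Injective t := by
  intro z w h
  have h1 : ‖z‖ ^ 2 * (9 + 16 * (‖z‖ ^ 2) ^ 2) = ‖w‖ ^ 2 * (9 + 16 * (‖w‖ ^ 2) ^ 2) := by
    have e1 := norm_t_sq z
    have e2 := norm_t_sq w
    rw [h] at e1
    linarith
  have h2 : ‖z‖ ^ 2 = ‖w‖ ^ 2 := by
    have h3 : (‖z‖ ^ 2 - ‖w‖ ^ 2) *
        (9 + 16 * ((‖z‖ ^ 2) ^ 2 + ‖z‖ ^ 2 * ‖w‖ ^ 2 + (‖w‖ ^ 2) ^ 2)) = 0 := by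
      linear_combination h1
    rcases mul_eq_zero.1 h3 with h4 | h4
    · linarith
    · exfalso
      have : 0 < 9 + 16 * ((‖z‖ ^ 2) ^ 2 + ‖z‖ ^ 2 * ‖w‖ ^ 2 + (‖w‖ ^ 2) ^ 2) := by positivity
      linarith
  have h5 : (3 + 4 * I * ((‖z‖ ^ 2 : ℝ) : ℂ)) ≠ 0 := by
    intro h0
    have := congrArg Complex.re h0
    simp [pow_two] at this
  have h6 : z * (3 + 4 * I * ((‖z‖ ^ 2 : ℝ) : ℂ)) = w * (3 + 4 * I * ((‖z‖ ^ 2 : ℝ) : ℂ)) := by
    have := h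
    rw [t, t, ← h2] at this
    linear_combination 5 * this
  exact mul_right_cancel₀ h5 h6

lemma t_surj {w : ℂ} (hw : w ∈ Metric.closedBall (0 : ℂ) 1) :
    ∃ z ∈ Metric.closedBall (0 : ℂ) 1, t z = w := by
  rw [mem_closedBall_zero_iff] at hw
  have hw2 : ‖w‖ ^ 2 ≤ 1 := by nlinarith [norm_nonneg w]
  obtain ⟨ρ, hρ, hval⟩ : ‖w‖ ^ 2 ∈ (fun s : ℝ => s * (9 + 16 * s ^ 2) / 25) '' Set.Icc 0 1 := by
    have hc : ContinuousOn (fun s : ℝ => s * (9 + 16 * s ^ 2) / 25) (Set.Icc 0 1) := by fun_prop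
    apply intermediate_value_Icc (by norm_num) hc
    refine ⟨?_, ?_⟩
    · simp
    · norm_num; exact (abs_le_one_iff_mul_self_le_one.2 (by nlinarith)).trans' (le_abs_self _)
  have h5 : (3 + 4 * I * (ρ : ℂ)) ≠ 0 := by
    intro h0
    have := congrArg Complex.re h0
    simp at this
  set z : ℂ := w * 5 / (3 + 4 * I * (ρ : ℂ)) with hz
  have hn : ‖(3 + 4 * I * (ρ : ℂ))‖ ^ 2 = 9 + 16 * ρ ^ 2 := by
    have : (3 + 4 * I * (ρ : ℂ)) = ((3 : ℝ) : ℂ) + ((4 * ρ : ℝ) : ℂ) * I := by push_cast; ring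
    rw [this, Complex.sq_norm, Complex.normSq_add_mul_I]; ring
  have hzn : ‖z‖ ^ 2 = ρ := by
    rw [hz, norm_div, norm_mul, div_pow, mul_pow, hn]
    have : ‖(5 : ℂ)‖ ^ 2 = 25 := by norm_num
    rw [this]
    simp only at hval
    rw [← hval]
    have : (9 + 16 * ρ ^ 2) ≠ 0 := by positivity
    field_simp
  refine ⟨z, ?_, ?_⟩
  · rw [mem_closedBall_zero_iff]
    have := hρ.2
    nlinarith [norm_nonneg z]
  · rw [t, hzn, hz]
    field_simp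

/-- the map on the closed unit disk -/
noncomputable def T : Metric.closedBall (0 : ℂ) 1 ≃ₜ Metric.closedBall (0 : ℂ) 1 :=
  Continuous.homeoOfEquivCompactToT2
    (f := Equiv.ofBijective (fun z => (⟨t z, t_mem z.2⟩ : Metric.closedBall (0 : ℂ) 1))
      ⟨fun z w h => Subtype.ext (t_injective (congrArg Subtype.val h)), fun w => by
        obtain ⟨z, hz, hzw⟩ := t_surj w.2
        exact ⟨⟨z, hz⟩, Subtype.ext hzw⟩⟩)
    (by
      change Continuous (fun z : Metric.closedBall (0 : ℂ) 1 =>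
        (⟨t z, t_mem z.2⟩ : Metric.closedBall (0 : ℂ) 1))
      exact (continuous_t.comp continuous_subtype_val).subtype_mk _)

lemma coe_T (z : Metric.closedBall (0 : ℂ) 1) : ((T z : Metric.closedBall (0 : ℂ) 1) : ℂ) = t z :=
  rfl

/-- **Theorem.**  There is a homeomorphism `T` of the closed unit disk onto itself such that for
all angles `α, β, γ > 0` with sum `π` there is an `ε > 0` such that no triangle with these interior
angles (at `p₁`, `p₂`, `p₃`) and with all sides shorter than `ε` is congruent to its image. -/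
theorem result : ∃ T : Metric.closedBall (0 : ℂ) 1 ≃ₜ Metric.closedBall (0 : ℂ) 1,
    ∀ α β γ : ℝ, 0 < α → 0 < β → 0 < γ → α + β + γ = Real.pi →
      ∃ ε : ℝ, 0 < ε ∧ ∀ p₁ p₂ p₃ : Metric.closedBall (0 : ℂ) 1,
        p₁ ≠ p₂ → p₁ ≠ p₃ → p₂ ≠ p₃ →
        EuclideanGeometry.angle (p₂ : ℂ) p₁ p₃ = α →
        EuclideanGeometry.angle (p₁ : ℂ) p₂ p₃ = β →
        EuclideanGeometry.angle (p₁ : ℂ) p₃ p₂ = γ →
        dist p₁ p₂ < ε → dist p₁ p₃ < ε → dist p₂ p₃ < ε →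
        ¬ (dist (T p₁) (T p₂) = dist p₁ p₂ ∧ dist (T p₁) (T p₃) = dist p₁ p₃ ∧
          dist (T p₂) (T p₃) = dist p₂ p₃) := by
  refine ⟨T, ?_⟩
  intro α β γ hα hβ hγ hsum
  have hs : 0 < Real.sin α := Real.sin_pos_of_pos_of_lt_pi hα (by linarith)
  have hs1 : Real.sin α ≤ 1 := Real.sin_le_one α
  refine ⟨Real.sin α ^ 2 / 200, by positivity, ?_⟩
  intro p₁ p₂ p₃ h12 h13 h23 hang _ _ hd12 hd13 _
  rintro ⟨c12, c13, c23⟩
  set p : ℂ := (p₁ : ℂ) with hp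
  set u : ℂ := (p₂ : ℂ) - p₁ with hu
  set w : ℂ := (p₃ : ℂ) - p₁ with hw
  have hp2 : (p₂ : ℂ) = p + u := by rw [hu, hp]; ring
  have hp3 : (p₃ : ℂ) = p + w := by rw [hw, hp]; ring
  have hu0 : 0 < ‖u‖ := by
    rw [norm_pos_iff, hu, sub_ne_zero]
    exact fun h => h12 (Subtype.ext h.symm)
  have hw0 : 0 < ‖w‖ := by
    rw [norm_pos_iff, hw, sub_ne_zero]
    exact fun h => h13 (Subtype.ext h.symm)
  have eu : dist p₁ p₂ = ‖u‖ := by rw [dist_comm, Subtype.dist_eq, dist_eq_norm]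
  have ew : dist p₁ p₃ = ‖w‖ := by rw [dist_comm, Subtype.dist_eq, dist_eq_norm]
  have euw : dist p₂ p₃ = ‖u - w‖ := by
    rw [Subtype.dist_eq, dist_eq_norm, hu, hw]; congr 1; ring
  have hpn : ‖p‖ ≤ 1 := mem_closedBall_zero_iff.1 p₁.2
  have hU : ‖t (p + u) - t p‖ = ‖u‖ := by
    rw [← eu, ← c12, dist_comm, Subtype.dist_eq, dist_eq_norm, coe_T, coe_T, hp2]
  have hW : ‖t (p + w) - t p‖ = ‖w‖ := by
    rw [← ew, ← c13, dist_comm, Subtype.dist_eq, dist_eq_norm, coe_T, coe_T, hp3]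
  have hUW : ‖t (p + u) - t (p + w)‖ = ‖u - w‖ := by
    rw [← euw, ← c23, Subtype.dist_eq, dist_eq_norm, coe_T, coe_T, hp2, hp3]
  set h : ℝ := max ‖u‖ ‖w‖ with hh
  have hlt : h < Real.sin α ^ 2 / 200 := max_lt (eu ▸ hd12) (ew ▸ hd13)
  have hb := main_bound (h := h) hpn (by nlinarith) (le_max_left _ _) (le_max_right _ _) hU hW hUW
  -- the angle
  have hcos : Real.cos α * (‖u‖ * ‖w‖) = ip u w := by
    rw [← hang, EuclideanGeometry.angle, InnerProductGeometry.cos_angle, vsub_eq_sub, vsub_eq_sub,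
      div_mul_cancel₀ _ (by positivity), Complex.inner]
    simp only [ip, Complex.mul_re, Complex.conj_re, Complex.conj_im]
    ring
  have hdt : dt u w ^ 2 = Real.sin α ^ 2 * (‖u‖ ^ 2 * ‖w‖ ^ 2) := by
    have h1 := lagrange u w
    rw [← hcos] at h1
    have h2 := Real.sin_sq_add_cos_sq α
    linear_combination h1 - (‖u‖ ^ 2 * ‖w‖ ^ 2) * h2
  have hpos : 0 < ‖u‖ ^ 2 * ‖w‖ ^ 2 := by positivity
  rw [hdt] at hb
  have h3 : Real.sin α ^ 2 ≤ 190 * h := le_of_mul_le_mul_right hb hpos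
  have h4 : 0 < Real.sin α ^ 2 := by positivity
  linarith

end Pool.Agent.Results.MP_623bad_gt.NoSmallTriangles
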